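import Pool.Agent.Helper51.Width.NotDiv

/-!
# The width of the weak containment order on free Cantor flows

Let `Γ` be a countable group. A prime `q` is called good for `Γ` if
* `Γ` has an infinite finitely generated subgroup without elements of order `q`, or
* `Γ` has finitely generated subgroups `N ≤ H` with `N` infinite and normalised by `H`, such that
  the index of `N` in `H` is infinite or divisible by `q`.

If infinitely many primes are good for `Γ` (for instance if `Γ` has an element of infinite order,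
or if `Γ` is finitely generated, infinite and residually finite), then the weak containment order
on the free Cantor flows of `Γ` has width continuum.
-/

set_option autoImplicit false

namespace Pool.Agent.Results.MP_459809_an.WidthContinuum

open Pool.Agent.Helper51.Width

variable {Γ : Type} [Group Γ]

/-- The good primes of a group: primes `q` such that some infinite finitely generated subgroup
has no element of order `q`, or such that there are finitely generated subgroups `N ≤ H`, with `N`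
infinite and normalised by `H`, whose index is infinite (`N.relIndex H = 0`) or divisible
by `q`. -/
def GoodPrimes (Γ : Type) [Group Γ] : Set ℕ :=
  {q : ℕ | q.Prime ∧
    ((∃ H : Subgroup Γ, H.FG ∧ Infinite H ∧ ∀ g ∈ H, orderOf g ≠ q) ∨
      ∃ H N : Subgroup Γ, H.FG ∧ N.FG ∧ N ≤ H ∧ (∀ h ∈ H, ∀ n ∈ N, h * n * h⁻¹ ∈ N) ∧
        Infinite N ∧ q ∣ N.relIndex H)}

theorem dvd_of_conj {q : ℕ} (hq : q.Prime) (hq2 : q ≠ 2) (H : Subgroup Γ)
    (hH : ∀ g ∈ H, orderOf g ≠ q) (f : Γ) (hf : ell f = q) (γ : Γ) (k : ℤ)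
    (h : γ * f ^ k * γ⁻¹ ∈ H) : (q : ℤ) ∣ k := by
  have hn0 : orderOf f ≠ 0 := by
    intro h0
    rw [ell, h0, Nat.minFac_zero] at hf
    exact hq2 hf.symm
  have hqn : q ∣ orderOf f := by
    rw [← hf]
    exact Nat.minFac_dvd _
  set g := γ * f ^ k * γ⁻¹ with hg
  set m := orderOf g with hm
  have hgm : ∀ j : ℕ, g ^ j = γ * f ^ (k * j) * γ⁻¹ := by
    intro j
    rw [hg, conj_pow, zpow_mul, zpow_natCast]
  have hm0 : m ≠ 0 := by
    rw [hm]
    intro h0
    rw [orderOf_eq_zero_iff'] at h0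
    apply h0 (orderOf f) (Nat.pos_of_ne_zero hn0)
    rw [hgm, mul_comm, zpow_mul, zpow_natCast, pow_orderOf_eq_one, one_zpow, mul_one,
      mul_inv_cancel]
  have hqm : ¬ q ∣ m := by
    intro hd
    apply hH (g ^ (m / q)) (H.pow_mem h _)
    exact orderOf_pow_orderOf_div hm0 hd
  have h1 : g ^ m = 1 := pow_orderOf_eq_one g
  rw [hgm] at h1
  have h2 : f ^ (k * m) = 1 := by
    have h3 : γ * f ^ (k * (m : ℤ)) = γ := by
      rw [← mul_inv_eq_one]
      exact h1
    exact mul_eq_left.1 h3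
  have h3 : ((orderOf f : ℕ) : ℤ) ∣ k * m := orderOf_dvd_iff_zpow_eq_one.2 h2
  have h4 : (q : ℤ) ∣ k * m := (Int.natCast_dvd_natCast.2 hqn).trans h3
  rcases (Nat.prime_iff_prime_int.1 hq).dvd_or_dvd h4 with h5 | h5
  · exact h5
  · exact absurd (Int.natCast_dvd_natCast.1 h5) hqm

theorem dvd_of_conj_bot (f γ : Γ) (k : ℤ) (h : γ * f ^ k * γ⁻¹ ∈ (⊥ : Subgroup Γ)) :
    ((ell f : ℕ) : ℤ) ∣ k := by
  rw [Subgroup.mem_bot] at h
  have h2 : f ^ k = 1 := by
    have h3 : γ * f ^ k = γ := by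
      rw [← mul_inv_eq_one]
      exact h
    exact mul_eq_left.1 h3
  exact (Int.natCast_dvd_natCast.2 (Nat.minFac_dvd _)).trans (orderOf_dvd_iff_zpow_eq_one.2 h2)

/-- the data attached to a prime -/
def Data (S R : Finset Γ) (q : ℕ) : Prop :=
  (∃ y : Γ → Γ → ZMod q, (∀ γ, ∑ s ∈ S, (y γ s - y (γ * s) s) = 1) ∧
    ∀ n ∈ R, ∀ γ s, y (γ * n) s = y γ s) ∧
  ((∀ g ∈ Subgroup.closure (S : Set Γ), orderOf g ≠ q) ∨
    ((∀ f : Γ, IsOfFinOrder f) ∧ Infinite (Subgroup.closure (R : Set Γ))))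

theorem data_a {q : ℕ} (hq : q.Prime) (H : Subgroup Γ) (hfg : H.FG) (hinf : Infinite H)
    (hH : ∀ g ∈ H, orderOf g ≠ q) : ∃ S R : Finset Γ, Data S R q := by
  obtain ⟨S, hS⟩ := hfg
  have : Fact q.Prime := ⟨hq⟩
  obtain ⟨y, hy, -⟩ := exists_y S ⊥ (by
      intro h _ n hn
      rw [Subgroup.mem_bot] at hn ⊢
      rw [hn, mul_one, mul_inv_cancel]) (by
      rw [hS, Subgroup.relIndex_bot_left]
      exact Nat.card_eq_zero_of_infinite) q
  exact ⟨S, ∅, ⟨y, hy, by simp⟩, Or.inl (by rw [hS]; exact hH)⟩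

theorem data_b {q : ℕ} (hq : q.Prime) (htor : ∀ f : Γ, IsOfFinOrder f) (H N : Subgroup Γ)
    (hfg : H.FG) (hNfg : N.FG) (hnorm : ∀ h ∈ H, ∀ n ∈ N, h * n * h⁻¹ ∈ N)
    (hN : Infinite N) (hd : q ∣ N.relIndex H) : ∃ S R : Finset Γ, Data S R q := by
  classical
  have : Fact q.Prime := ⟨hq⟩
  obtain ⟨R, hR⟩ := hNfg
  by_cases h0 : N.relIndex H = 0
  · obtain ⟨S, hS⟩ := hfg
    obtain ⟨y, hy, hy'⟩ := exists_y S N (by rw [hS]; exact hnorm) (by rw [hS]; exact h0) q
    exact ⟨S, R, ⟨y, hy, fun n hn => hy' n (by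
      rw [← hR]; exact Subgroup.subset_closure hn)⟩, Or.inr ⟨htor, by rw [hR]; exact hN⟩⟩
  · have hnormal : (N.subgroupOf H).Normal := by
      refine ⟨fun n hn g => ?_⟩
      rw [Subgroup.mem_subgroupOf] at hn ⊢
      push_cast
      exact hnorm g g.2 n hn
    have hfin : Finite (H ⧸ N.subgroupOf H) := Nat.finite_of_card_ne_zero h0
    have hd' : q ∣ Nat.card (H ⧸ N.subgroupOf H) := hd
    obtain ⟨c, hc⟩ := exists_prime_orderOf_dvd_card' q hd'
    obtain ⟨g, rfl⟩ := QuotientGroup.mk_surjective c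
    have hk : ∀ k : ℤ, (g : Γ) ^ k ∈ N → (q : ℤ) ∣ k := by
      intro k hk
      rw [← hc]
      apply orderOf_dvd_iff_zpow_eq_one.2
      rw [← QuotientGroup.mk_zpow, QuotientGroup.eq_one_iff, Subgroup.mem_subgroupOf]
      push_cast
      exact hk
    obtain ⟨x, hx, hx'⟩ := exists_y' N (g : Γ) (fun n hn => hnorm g g.2 n hn) (by
      intro n hn
      have := hnorm (g : Γ)⁻¹ (H.inv_mem g.2) n hn
      rwa [inv_inv] at this) q hk
    refine ⟨{(g : Γ)}, R, ⟨fun γ _ => -x γ, fun γ => ?_, fun n hn γ _ => ?_⟩,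
      Or.inr ⟨htor, by rw [hR]; exact hN⟩⟩
    · rw [Finset.sum_singleton]
      change -x γ - -x (γ * (g : Γ)) = 1
      rw [hx]
      ring
    · change -x (γ * n) = -x γ
      rw [hx' n (by rw [← hR]; exact Subgroup.subset_closure hn)]

theorem exists_point (S R : ℕ → Finset Γ) (Q : Set ℕ)
    (hQ : ∀ q ∈ Q, q.Prime ∧ q ≠ 2 ∧ Data (S q) (R q) q) (T : Set ℕ) (hT : T ⊆ Q) (q : ℕ)
    (hq : q ∈ Q) :
    ∃ ω ∈ A (Γ := Γ) T S R, (∀ g ∈ Subgroup.closure (S q : Set Γ), orderOf g ≠ q) →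
      ∀ f, ell f = q → ∀ s ∈ S q, ∀ γ, ω.1 f (s * γ) = ω.1 f γ := by
  have h1 : ∀ f : Γ, ∃ x : Γ → ZMod (ell f), (∀ γ, x (γ * f) = x γ + 1) ∧
      ((∀ g ∈ Subgroup.closure (S q : Set Γ), orderOf g ≠ q) →
        ell f = q → ∀ s ∈ S q, ∀ γ, x (s * γ) = x γ) := by
    intro f
    by_cases hf : (∀ g ∈ Subgroup.closure (S q : Set Γ), orderOf g ≠ q) ∧ ell f = q
    · obtain ⟨hqp, hq2, -⟩ := hQ q hq
      obtain ⟨x, hx1, hx2⟩ := exists_x (Subgroup.closure (S q : Set Γ)) f (ell f) (by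
        intro γ k h
        rw [hf.2]
        exact dvd_of_conj hqp hq2 _ hf.1 f hf.2 γ k h)
      exact ⟨x, hx1, fun _ _ s hs γ => hx2 s (Subgroup.subset_closure hs) γ⟩
    · obtain ⟨x, hx1, -⟩ := exists_x ⊥ f (ell f) (fun γ k h => dvd_of_conj_bot f γ k h)
      exact ⟨x, hx1, fun h h' => absurd ⟨h, h'⟩ hf⟩
  choose x hx1 hx2 using h1
  have h2 : ∀ p : T, ∃ y : Γ → Γ → ZMod (p : ℕ),
      (∀ γ, ∑ s ∈ S p, (y γ s - y (γ * s) s) = 1) ∧
      ∀ n ∈ R p, ∀ γ s, y (γ * n) s = y γ s := fun p => (hQ p (hT p.2)).2.2.1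
  choose y hy hy' using h2
  exact ⟨(x, y), ⟨hx1, hy, hy'⟩, fun h f hf => hx2 f h hf⟩

theorem exists_flow [Countable Γ] (S R : ℕ → Finset Γ) (Q : Set ℕ)
    (hQ : ∀ q ∈ Q, q.Prime ∧ q ≠ 2 ∧ Data (S q) (R q) q) (hne : Q.Nonempty)
    (T : Set ℕ) (hT : T ⊆ Q) :
    ∃ a : FreeFlow Γ, ∀ q ∈ Q, Div (fun g => a.1 g) (S q) (R q) q ↔ q ∈ T := by
  have hTp : ∀ p ∈ T, p.Prime := fun p hp => (hQ p (hT hp)).1
  obtain ⟨q₀, hq₀⟩ := hne
  obtain ⟨ω₀, hω₀, -⟩ := exists_point S R Q hQ T hT q₀ hq₀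
  obtain ⟨e⟩ := X_homeo (Γ := Γ) T S R (fun p hp => (hTp p hp).ne_zero) ⟨ω₀, hω₀⟩
  refine ⟨⟨flow T S R e, flow_free T S R e⟩, fun q hq => ?_⟩
  rw [div_flow]
  constructor
  · intro h
    by_contra hqT
    obtain ⟨ω, hω, hω'⟩ := exists_point S R Q hQ T hT q hq
    have : Fact q.Prime := ⟨(hQ q hq).1⟩
    rcases (hQ q hq).2.2.2 with ha | ⟨htor, hN⟩
    · exact not_div_a hTp hqT hω (hω' ha) h
    · exact not_div_b hTp hqT htor hN hω h
  · intro h
    exact div_rho T S R ⟨q, h⟩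

/-- **Theorem.** If infinitely many primes are good for the countable group `Γ`, then the width
of the weak containment order on the classes of free Cantor flows of `Γ` is the continuum. -/
theorem result (Γ : Type) [Group Γ] [Countable Γ] (h : (GoodPrimes Γ).Infinite) :
    width Γ = Cardinal.continuum := by
  classical
  apply le_antisymm width_le
  have hQinf : ((GoodPrimes Γ) \ {2}).Infinite := h.sdiff (Set.finite_singleton 2)
  have h1 : ∀ q : ℕ, ∃ S R : Finset Γ, q ∈ GoodPrimes Γ → Data S R q := by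
    intro q
    by_cases hq : q ∈ GoodPrimes Γ
    · by_cases htor : ∀ f : Γ, IsOfFinOrder f
      · rcases hq.2 with ⟨H, h1, h2, h3⟩ | ⟨H, N, h1, h2, h3, h4, h5, h6⟩
        · obtain ⟨S, R, hSR⟩ := data_a hq.1 H h1 h2 h3
          exact ⟨S, R, fun _ => hSR⟩
        · obtain ⟨S, R, hSR⟩ := data_b hq.1 htor H N h1 h2 h4 h5 h6
          exact ⟨S, R, fun _ => hSR⟩
      · push Not at htor
        obtain ⟨f, hf⟩ := htor
        obtain ⟨S, R, hSR⟩ := data_a hq.1 (Subgroup.zpowers f)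
          ⟨{f}, by rw [Finset.coe_singleton, Subgroup.zpowers_eq_closure]⟩
          (by
            have := infinite_zpowers.2 hf
            exact Set.infinite_coe_iff.2 this) (by
            rintro _ ⟨k, rfl⟩ h0
            have hk : k ≠ 0 := by
              rintro rfl
              simp at h0
              exact hq.1.one_lt.ne h0
            have h2 : (f ^ k) ^ q = 1 := by
              rw [← h0]
              exact pow_orderOf_eq_one _
            rw [← zpow_natCast, ← zpow_mul] at h2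
            have h3 := hf (isOfFinOrder_iff_zpow_eq_one.2
              ⟨k * q, mul_ne_zero hk (by exact_mod_cast hq.1.ne_zero), h2⟩)
            exact h3)
        exact ⟨S, R, fun _ => hSR⟩
    · exact ⟨∅, ∅, fun h => absurd h hq⟩
  choose S R hSR using h1
  set Q : Set ℕ := (GoodPrimes Γ) \ {2} with hQdef
  have hQ : ∀ q ∈ Q, q.Prime ∧ q ≠ 2 ∧ Data (S q) (R q) q :=
    fun q hq => ⟨hq.1.1, hq.2, hSR q hq.1⟩
  let e : ℕ ↪ Q := hQinf.natEmbedding
  let T : (ℕ → Bool) → Set ℕ := fun r => {q | ∃ n, q = e (2 * n + (r n).toNat)}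
  have hT : ∀ r, T r ⊆ Q := by
    rintro r q ⟨n, rfl⟩
    exact (e _).2
  have hTinj : ∀ r r', T r ⊆ T r' → r = r' := by
    intro r r' hsub
    funext n
    obtain ⟨n', hn'⟩ := hsub (show ((e (2 * n + (r n).toNat) : Q) : ℕ) ∈ T r from ⟨n, rfl⟩)
    have h2 : 2 * n + (r n).toNat = 2 * n' + (r' n').toNat := e.injective (Subtype.ext hn')
    have h3 := Bool.toNat_le (r n)
    have h4 := Bool.toNat_le (r' n')
    have h5 : n = n' := by omega
    subst h5
    have h6 : (r n).toNat = (r' n).toNat := by omega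
    revert h6
    cases r n <;> cases r' n <;> simp
  choose a ha using fun r => exists_flow S R Q hQ hQinf.nonempty (T r) (hT r)
  apply width_ge a
  intro r r' hle
  apply hTinj
  intro q hq
  have hqQ := hT r hq
  rw [← ha r' q hqQ]
  have : NeZero q := ⟨(hQ q hqQ).1.ne_zero⟩
  exact div_mono hle ((ha r q hqQ).2 hq)

end Pool.Agent.Results.MP_459809_an.WidthContinuum
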